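import Pool.Agent.GT.StmtsF

/-!
# Squad GT, row F_EVL: values of rational functions
-/

set_option autoImplicit false

namespace Pool.Agent.GT.F.H76

open Polynomial Pool.Agent.NJ

theorem ev_key (t : ℚ) (f : RatFunc ℚ) (p q : ℚ[X])
    (hf : f = algebraMap ℚ[X] (RatFunc ℚ) p / algebraMap ℚ[X] (RatFunc ℚ) q)
    (hq : q.eval t ≠ 0) : f.denom.eval t ≠ 0 ∧ ev t f = p.eval t / q.eval t := by
  have hq0 : q ≠ 0 := by
    rintro rfl
    exact hq (by simp)
  have h1 : f.denom ∣ q := by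
    rw [hf]
    exact RatFunc.denom_div_dvd p q
  have h2 : f.denom.eval t ≠ 0 := by
    intro h
    obtain ⟨r, hr⟩ := h1
    apply hq
    rw [hr, eval_mul, h, zero_mul]
  have hQ : algebraMap ℚ[X] (RatFunc ℚ) q ≠ 0 := by
    rw [Ne, FaithfulSMul.algebraMap_eq_zero_iff]
    exact hq0
  have hD : algebraMap ℚ[X] (RatFunc ℚ) f.denom ≠ 0 := by
    rw [Ne, FaithfulSMul.algebraMap_eq_zero_iff]
    exact RatFunc.denom_ne_zero f
  have h3 : f.num * q = p * f.denom := by
    apply FaithfulSMul.algebraMap_injective ℚ[X] (RatFunc ℚ)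
    have h4 : algebraMap ℚ[X] (RatFunc ℚ) f.num / algebraMap ℚ[X] (RatFunc ℚ) f.denom =
        algebraMap ℚ[X] (RatFunc ℚ) p / algebraMap ℚ[X] (RatFunc ℚ) q := by
      rw [RatFunc.num_div_denom, ← hf]
    rw [div_eq_div_iff hD hQ] at h4
    rw [map_mul, map_mul, h4]
  refine ⟨h2, ?_⟩
  rw [ev, div_eq_div_iff h2 hq, ← eval_mul, ← eval_mul, h3]

theorem f_evl : EvlStmt := by
  have hnd : ∀ f : RatFunc ℚ, f = algebraMap ℚ[X] (RatFunc ℚ) f.num /
      algebraMap ℚ[X] (RatFunc ℚ) f.denom := fun f => (RatFunc.num_div_denom f).symm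
  have hD : ∀ f : RatFunc ℚ, algebraMap ℚ[X] (RatFunc ℚ) f.denom ≠ 0 := by
    intro f
    rw [Ne, FaithfulSMul.algebraMap_eq_zero_iff]
    exact RatFunc.denom_ne_zero f
  refine ⟨?_, ?_, ?_, ?_⟩
  · intro t f g hf hg
    have h1 := ev_key t (f + g) (f.num * g.denom + f.denom * g.num) (f.denom * g.denom) (by
      rw [map_mul, map_add, map_mul, map_mul, ← div_add_div _ _ (hD f) (hD g), ← hnd, ← hnd])
      (by rw [eval_mul]; exact mul_ne_zero hf hg)
    have h2 := ev_key t (f - g) (f.num * g.denom - f.denom * g.num) (f.denom * g.denom) (by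
      rw [map_mul, map_sub, map_mul, map_mul, ← div_sub_div _ _ (hD f) (hD g), ← hnd, ← hnd])
      (by rw [eval_mul]; exact mul_ne_zero hf hg)
    have h3 := ev_key t (f * g) (f.num * g.num) (f.denom * g.denom) (by
      rw [map_mul, map_mul, ← div_mul_div_comm, ← hnd, ← hnd])
      (by rw [eval_mul]; exact mul_ne_zero hf hg)
    refine ⟨h1.1, ?_, h2.1, ?_, h3.1, ?_⟩
    · rw [h1.2, ev, ev, div_add_div _ _ hf hg, eval_mul, eval_add, eval_mul, eval_mul]
    · rw [h2.2, ev, ev, div_sub_div _ _ hf hg, eval_mul, eval_sub, eval_mul, eval_mul]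
    · rw [h3.2, ev, ev, div_mul_div_comm, eval_mul, eval_mul]
  · intro t p
    have h1 := ev_key t (algebraMap ℚ[X] (RatFunc ℚ) p) p 1 (by rw [map_one, div_one])
      (by rw [eval_one]; exact one_ne_zero)
    exact ⟨h1.1, by rw [h1.2, eval_one, div_one]⟩
  · intro t f hf hv
    have hn : f.num.eval t ≠ 0 := by
      intro h
      apply hv
      rw [ev, h, zero_div]
    have h1 := ev_key t f⁻¹ f.denom f.num (by
      conv_lhs => rw [hnd f]
      rw [inv_div]) hn
    exact ⟨h1.1, by rw [h1.2, ev, inv_div]⟩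
  · intro f
    refine ⟨f.denom.roots.toFinset ∪ f.num.roots.toFinset, fun t ht => ?_⟩
    rw [Finset.notMem_union, Multiset.mem_toFinset, Multiset.mem_toFinset] at ht
    have h1 : f.denom.eval t ≠ 0 := fun h =>
      ht.1 ((mem_roots (RatFunc.denom_ne_zero f)).2 h)
    refine ⟨h1, fun hf => ?_⟩
    have h2 : f.num.eval t ≠ 0 := fun h => ht.2 ((mem_roots (RatFunc.num_ne_zero hf)).2 h)
    exact div_ne_zero h2 h1

end Pool.Agent.GT.F.H76
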