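import Pool.Agent.GT.StmtsD

/-!
# Squad GT, row D_DIA

The diagonal of a system of linear equations over the field with two elements can be chosen such that the
system has only the zero solution.
-/

set_option autoImplicit false

namespace Pool.Agent.GT.D.H76

theorem dia_step (n : ℕ) (ι : Type) [Fintype ι] [DecidableEq ι]
    (L : (Fin n → ZMod 2) →ₗ[ZMod 2] (Fin n → ZMod 2)) (c : ι → Fin n → ZMod 2)
    (b : ι → (Fin n → ZMod 2) →ₗ[ZMod 2] ZMod 2) (g : ι → ι → ZMod 2)
    (hL : Function.Injective L) (s : Finset ι) :
    ∃ δ : ι → ZMod 2, ∀ (v : Fin n → ZMod 2) (η : ι → ZMod 2), (∀ i, i ∉ s → η i = 0) →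
      L v + ∑ i, η i • c i = 0 →
      (∀ i ∈ s, b i v + ∑ j, g i j * η j + δ i * η i = 0) → v = 0 ∧ η = 0 := by
  have two : ∀ x : ZMod 2, x + x = 0 := by decide
  induction s using Finset.induction_on with
  | empty =>
    refine ⟨0, fun v η h0 h1 _ => ?_⟩
    have hη : η = 0 := by
      funext i
      exact h0 i (Finset.notMem_empty i)
    subst hη
    refine ⟨?_, rfl⟩
    have h2 : L v = 0 := by simpa using h1
    exact hL (h2.trans (map_zero L).symm)
  | insert q s hq ih =>
    obtain ⟨δ, hδ⟩ := ih
    -- the decomposition of a vector with the entry 1 at q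
    have key : ∀ (v : Fin n → ZMod 2) (η : ι → ZMod 2) (x : ZMod 2),
        (∀ i, i ∉ insert q s → η i = 0) → L v + ∑ i, η i • c i = 0 →
        (∀ i ∈ insert q s, b i v + ∑ j, g i j * η j + (Function.update δ q x) i * η i = 0) →
        η q = 1 → ∃ η' : ι → ZMod 2, (∀ i, i ∉ s → η' i = 0) ∧ L v + ∑ i, η' i • c i = c q ∧
          (∀ i ∈ s, b i v + ∑ j, g i j * η' j + δ i * η' i = g i q) ∧
          b q v + ∑ j, g q j * η' j + g q q + x = 0 := by
      intro v η x h0 h1 h2 h3
      have hs1 : ∀ i, η i = Function.update η q 0 i + (if i = q then 1 else 0) := by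
        intro i
        by_cases hi : i = q
        · subst hi
          simp [h3]
        · simp [hi]
      obtain ⟨η', hη'⟩ : ∃ η' : ι → ZMod 2, η' = Function.update η q 0 := ⟨_, rfl⟩
      rw [← hη'] at hs1
      have hsum : ∀ i, ∑ j, g i j * η j = ∑ j, g i j * η' j + g i q := by
        intro i
        have e1 : ∀ j, g i j * η j = g i j * η' j + (if j = q then g i j else 0) := by
          intro j
          rw [hs1 j]
          split_ifs with hj
          · ring
          · ring
        rw [Finset.sum_congr rfl (fun j _ => e1 j), Finset.sum_add_distrib]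
        simp
      have hsc : ∑ i, η i • c i = ∑ i, η' i • c i + c q := by
        have e1 : ∀ j, η j • c j = η' j • c j + (if j = q then c j else 0) := by
          intro j
          rw [hs1 j, add_smul]
          split_ifs with hj
          · rw [one_smul]
          · rw [zero_smul]
        rw [Finset.sum_congr rfl (fun j _ => e1 j), Finset.sum_add_distrib]
        simp
      refine ⟨η', ?_, ?_, ?_, ?_⟩
      · intro i hi
        rw [hη']
        by_cases hiq : i = q
        · subst hiq
          simp
        · rw [Function.update_of_ne hiq]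
          exact h0 i (by simp [hiq, hi])
      · rw [hsc] at h1
        funext k
        have h1k := congrFun h1 k
        simp only [Pi.add_apply, Pi.zero_apply] at h1k ⊢
        have := two (c q k)
        linear_combination h1k - this
      · intro i hi
        have hiq : i ≠ q := fun h => hq (h ▸ hi)
        have h4 := h2 i (Finset.mem_insert_of_mem hi)
        rw [Function.update_of_ne hiq, hsum i] at h4
        have e2 : η i = η' i := by
          rw [hη', Function.update_of_ne hiq]
        rw [e2] at h4
        have := two (g i q)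
        linear_combination h4 - this
      · have h4 := h2 q (Finset.mem_insert_self q s)
        rw [Function.update_self, hsum q, h3] at h4
        linear_combination h4
    -- when the entry at q is zero
    have key0 : ∀ (v : Fin n → ZMod 2) (η : ι → ZMod 2) (x : ZMod 2),
        (∀ i, i ∉ insert q s → η i = 0) → L v + ∑ i, η i • c i = 0 →
        (∀ i ∈ insert q s, b i v + ∑ j, g i j * η j + (Function.update δ q x) i * η i = 0) →
        η q = 0 → v = 0 ∧ η = 0 := by
      intro v η x h0 h1 h2 h3
      refine hδ v η ?_ h1 ?_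
      · intro i hi
        by_cases hiq : i = q
        · rw [hiq, h3]
        · exact h0 i (by simp [hiq, hi])
      · intro i hi
        have hiq : i ≠ q := fun h => hq (h ▸ hi)
        have h4 := h2 i (Finset.mem_insert_of_mem hi)
        rwa [Function.update_of_ne hiq] at h4
    have cases2 : ∀ x : ZMod 2, x = 0 ∨ x = 1 := by decide
    by_cases hex : ∃ (v₁ : Fin n → ZMod 2) (η₁ : ι → ZMod 2), (∀ i, i ∉ s → η₁ i = 0) ∧
        L v₁ + ∑ i, η₁ i • c i = c q ∧
        (∀ i ∈ s, b i v₁ + ∑ j, g i j * η₁ j + δ i * η₁ i = g i q)
    · obtain ⟨v₁, η₁, k0, k1, k2⟩ := hex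
      refine ⟨Function.update δ q (1 + b q v₁ + ∑ j, g q j * η₁ j + g q q),
        fun v η h0 h1 h2 => ?_⟩
      rcases cases2 (η q) with h3 | h3
      · exact key0 v η _ h0 h1 h2 h3
      · exfalso
        obtain ⟨η', m0, m1, m2, m3⟩ := key v η _ h0 h1 h2 h3
        have huniq := hδ (v - v₁) (η' - η₁) ?_ ?_ ?_
        · have hv : v = v₁ := sub_eq_zero.1 huniq.1
          have hη : η' = η₁ := sub_eq_zero.1 huniq.2
          rw [hv, hη] at m3
          have t1 := two (b q v₁)
          have t2 := two (∑ j, g q j * η₁ j)
          have t3 := two (g q q)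
          have : (1 : ZMod 2) = 0 := by linear_combination m3 - t1 - t2 - t3
          exact one_ne_zero this
        · intro i hi
          rw [Pi.sub_apply, m0 i hi, k0 i hi, sub_zero]
        · have e1 : ∑ i, (η' - η₁) i • c i = ∑ i, η' i • c i - ∑ i, η₁ i • c i := by
            rw [← Finset.sum_sub_distrib]
            exact Finset.sum_congr rfl (fun i _ => by rw [Pi.sub_apply, sub_smul])
          rw [e1, map_sub]
          have e2 : L v - L v₁ + (∑ i, η' i • c i - ∑ i, η₁ i • c i)
              = (L v + ∑ i, η' i • c i) - (L v₁ + ∑ i, η₁ i • c i) := by abel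
          rw [e2, m1, k1, sub_self]
        · intro i hi
          have e1 : ∑ j, g i j * (η' - η₁) j = ∑ j, g i j * η' j - ∑ j, g i j * η₁ j := by
            rw [← Finset.sum_sub_distrib]
            exact Finset.sum_congr rfl (fun j _ => by rw [Pi.sub_apply, mul_sub])
          rw [e1, map_sub, Pi.sub_apply]
          linear_combination m2 i hi - k2 i hi
    · refine ⟨Function.update δ q 0, fun v η h0 h1 h2 => ?_⟩
      rcases cases2 (η q) with h3 | h3
      · exact key0 v η _ h0 h1 h2 h3
      · exfalso
        obtain ⟨η', m0, m1, m2, _⟩ := key v η _ h0 h1 h2 h3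
        exact hex ⟨v, η', m0, m1, m2⟩

theorem d_dia : Pool.Agent.GT.D.DiaStmt := by
  intro n ι _ _ L c b g hL
  obtain ⟨δ, hδ⟩ := dia_step n ι L c b g hL Finset.univ
  exact ⟨δ, fun v η h1 h2 => hδ v η (fun i hi => absurd (Finset.mem_univ i) hi) h1
    (fun i _ => h2 i)⟩

end Pool.Agent.GT.D.H76
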