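import Pool.Agent.GT.StmtsE

/-!
# Squad GT, row E_HLF: halving
-/

set_option autoImplicit false

namespace Pool.Agent.GT.OF.H76

open Polynomial Pool.Agent.NJ Pool.Agent.GT.D

theorem e_hlf (hD : DupStmt) : HlfStmt := by
  classical
  intro F _ W e hR Q x hQ hsq
  obtain ⟨d1, d2, -, d4, -, -, -, d8⟩ := hD F W e hR
  choose r hr using hsq
  obtain ⟨ξ, hξ⟩ : ∃ ξ, ξ = x + r 0 * r 1 + r 0 * r 2 + r 1 * r 2 := ⟨_, rfl⟩
  have h0 : ξ - e 0 = (r 0 + r 1) * (r 0 + r 2) := by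
    rw [hξ]
    linear_combination hr 0
  have h1 : ξ - e 1 = (r 0 + r 1) * (r 1 + r 2) := by
    rw [hξ]
    linear_combination hr 1
  have h2 : ξ - e 2 = (r 0 + r 2) * (r 1 + r 2) := by
    rw [hξ]
    linear_combination hr 2
  have hne : ∀ i j, i ≠ j → r i + r j ≠ 0 := by
    intro i j hij h
    apply hR.ne i j hij
    have e1 : (r i + r j) * (r i - r j) = e j - e i := by linear_combination hr j - hr i
    rw [h, zero_mul] at e1
    exact (sub_eq_zero.1 e1.symm).symm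
  have n01 : r 0 + r 1 ≠ 0 := hne 0 1 (by decide)
  have n02 : r 0 + r 2 ≠ 0 := hne 0 2 (by decide)
  have n12 : r 1 + r 2 ≠ 0 := hne 1 2 (by decide)
  obtain ⟨Q', hQ'⟩ := d8 ξ ⟨(r 0 + r 1) * (r 0 + r 2) * (r 1 + r 2), by
    rw [h0, h1, h2]
    ring⟩
  have hnr : ¬ ∃ i, ξ = e i := by
    rintro ⟨i, hi⟩
    fin_cases i
    · have : ξ - e 0 = 0 := sub_eq_zero.2 hi
      rw [h0] at this
      exact mul_ne_zero n01 n02 this
    · have : ξ - e 1 = 0 := sub_eq_zero.2 hi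
      rw [h1] at this
      exact mul_ne_zero n01 n12 this
    · have : ξ - e 2 = 0 := sub_eq_zero.2 hi
      rw [h2] at this
      exact mul_ne_zero n02 n12 this
  have h2Q : 2 • Q' ≠ 0 := fun h => hnr ((d1 Q' ξ hQ').1 h)
  obtain ⟨x', hx', hi⟩ := d2 Q' ξ hQ' h2Q
  have h3 := hi 0
  have e01 : (0 : Fin 3) + 1 = 1 := rfl
  have e02 : (0 : Fin 3) + 2 = 2 := rfl
  rw [e01, e02, h0, h1, h2] at h3
  have h4 : (4 * ((r 0 + r 1) * (r 0 + r 2) * (r 1 + r 2)) ^ 2) * (x' - e 0) =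
      (4 * ((r 0 + r 1) * (r 0 + r 2) * (r 1 + r 2)) ^ 2) * (x - e 0) := by
    have e1 : e 0 - e 1 = r 1 * r 1 - r 0 * r 0 := by linear_combination hr 1 - hr 0
    have e2 : e 0 - e 2 = r 2 * r 2 - r 0 * r 0 := by linear_combination hr 2 - hr 0
    rw [e1, e2] at h3
    rw [hr 0]
    linear_combination h3
  have h40 : (4 : F) * ((r 0 + r 1) * (r 0 + r 2) * (r 1 + r 2)) ^ 2 ≠ 0 := by
    have : (4 : F) = 2 * 2 := by norm_num
    rw [this]
    exact mul_ne_zero (mul_ne_zero hR.two hR.two)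
      (pow_ne_zero 2 (mul_ne_zero (mul_ne_zero n01 n02) n12))
  have h5 : x' = x := sub_left_injective (mul_left_cancel₀ h40 h4)
  rw [h5] at hx'
  rcases d4 (2 • Q') Q x hx' hQ with h6 | h6
  · exact ⟨Q', h6.symm⟩
  · exact ⟨-Q', by rw [smul_neg, h6, neg_neg]⟩

end Pool.Agent.GT.OF.H76
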